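import Mathlib

/-! A discrete Polya criterion, and the sign of finite differences of real powers. -/

namespace Pool.Agent.P.MP_271f9a_pr

open Matrix Finset

/-- Iterated forward difference with step one of `x ↦ x ^ p`. -/
noncomputable def dd : ℕ → ℝ → ℝ → ℝ
  | 0, p, x => x ^ p
  | k + 1, p, x => dd k p (x + 1) - dd k p x

lemma dd_hasDerivAt (k : ℕ) (p x : ℝ) (hx : 0 < x) :
    HasDerivAt (dd k p) (p * dd k (p - 1) x) x := by
  induction k generalizing x with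
  | zero => exact Real.hasDerivAt_rpow_const (Or.inl hx.ne')
  | succ k ih =>
    have h1 : HasDerivAt (fun y => dd k p (y + 1)) (p * dd k (p - 1) (x + 1)) x :=
      HasDerivAt.comp_add_const x 1 (ih (x + 1) (by linarith))
    have h2 := h1.sub (ih x hx)
    have e : p * dd (k + 1) (p - 1) x = p * dd k (p - 1) (x + 1) - p * dd k (p - 1) x := by
      simp only [dd]; ring
    rw [e]
    exact h2

lemma dd_continuous (k : ℕ) (p : ℝ) (hp : 0 ≤ p) : Continuous (dd k p) := by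
  induction k with
  | zero => exact Real.continuous_rpow_const hp
  | succ k ih => exact (ih.comp (continuous_add_const 1)).sub ih

lemma dd_mvt (k : ℕ) (p x : ℝ) (hx : 0 ≤ x) (h : 0 < x ∨ 0 ≤ p) :
    ∃ ξ, 0 < ξ ∧ dd (k + 1) p x = p * dd k (p - 1) ξ := by
  have hc : ContinuousOn (dd k p) (Set.Icc x (x + 1)) := by
    rcases h with h | h
    · intro y hy
      exact (dd_hasDerivAt k p y (by linarith [hy.1])).continuousAt.continuousWithinAt
    · exact (dd_continuous k p h).continuousOn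
  obtain ⟨ξ, hξ, e⟩ := exists_hasDerivAt_eq_slope (dd k p) (fun y => p * dd k (p - 1) y)
    (show x < x + 1 by linarith) hc (fun y hy => dd_hasDerivAt k p y (by linarith [hy.1]))
  refine ⟨ξ, by linarith [hξ.1], ?_⟩
  rw [e]
  simp [dd]

lemma dd_two_nonneg (γ x : ℝ) (h1 : 1 < γ) (hx : 0 ≤ x) : 0 ≤ dd 2 γ x := by
  obtain ⟨a, ha, e1⟩ := dd_mvt 1 γ x hx (Or.inr (by linarith))
  obtain ⟨b, hb, e2⟩ := dd_mvt 0 (γ - 1) a ha.le (Or.inl ha)
  rw [e1, e2]
  have : 0 < dd 0 (γ - 1 - 1) b := Real.rpow_pos_of_pos hb _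
  have h3 : 0 < γ - 1 := by linarith
  positivity

lemma dd_three_nonpos (γ x : ℝ) (h1 : 1 < γ) (h2 : γ < 2) (hx : 0 ≤ x) : dd 3 γ x ≤ 0 := by
  obtain ⟨a, ha, e1⟩ := dd_mvt 2 γ x hx (Or.inr (by linarith))
  obtain ⟨b, hb, e2⟩ := dd_mvt 1 (γ - 1) a ha.le (Or.inl ha)
  obtain ⟨c, hc, e3⟩ := dd_mvt 0 (γ - 1 - 1) b hb.le (Or.inl hb)
  rw [e1, e2, e3]
  have : 0 < dd 0 (γ - 1 - 1 - 1) c := Real.rpow_pos_of_pos hc _
  have h3 : 0 < γ - 1 := by linarith
  have h4 : 0 < 2 - γ := by linarith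
  have h5 : 0 < γ * ((γ - 1) * ((2 - γ) * dd 0 (γ - 1 - 1 - 1) c)) := by positivity
  nlinarith

lemma dd_four_nonneg (γ x : ℝ) (h1 : 1 < γ) (h2 : γ < 2) (hx : 0 ≤ x) : 0 ≤ dd 4 γ x := by
  obtain ⟨a, ha, e1⟩ := dd_mvt 3 γ x hx (Or.inr (by linarith))
  obtain ⟨b, hb, e2⟩ := dd_mvt 2 (γ - 1) a ha.le (Or.inl ha)
  obtain ⟨c, hc, e3⟩ := dd_mvt 1 (γ - 1 - 1) b hb.le (Or.inl hb)
  obtain ⟨d, hd, e4⟩ := dd_mvt 0 (γ - 1 - 1 - 1) c hc.le (Or.inl hc)
  rw [e1, e2, e3, e4]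
  have : 0 < dd 0 (γ - 1 - 1 - 1 - 1) d := Real.rpow_pos_of_pos hd _
  have h3 : 0 < γ - 1 := by linarith
  have h4 : 0 < 2 - γ := by linarith
  have h6 : 0 < 3 - γ := by linarith
  have h5 : 0 < γ * ((γ - 1) * ((2 - γ) * ((3 - γ) * dd 0 (γ - 1 - 1 - 1 - 1) d))) := by
    positivity
  nlinarith

lemma const_pos (γ : ℝ) (h2 : γ < 2) : 0 < 7 - 4 * (2 : ℝ) ^ γ + (3 : ℝ) ^ γ := by
  set t : ℝ := (2 : ℝ) ^ (γ - 2) with ht
  have ht0 : 0 < t := Real.rpow_pos_of_pos (by norm_num) _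
  have ht1 : t < 1 := Real.rpow_lt_one_of_one_lt_of_neg (by norm_num) (by linarith)
  have e2 : (2 : ℝ) ^ γ = 4 * t := by
    rw [ht, Real.rpow_sub (by norm_num)]; norm_num; ring
  have e3 : (3 : ℝ) ^ γ = 9 * (3 : ℝ) ^ (γ - 2) := by
    rw [Real.rpow_sub (by norm_num)]; norm_num; ring
  have h32 : (3 : ℝ) ≤ (2 : ℝ) ^ ((5 : ℝ) / 3) := by
    have a : ((2 : ℝ) ^ ((5 : ℝ) / 3)) ^ (3 : ℕ) = 32 := by
      rw [← Real.rpow_natCast, ← Real.rpow_mul (by norm_num)]; norm_num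
    by_contra hcon
    push Not at hcon
    have b : ((2 : ℝ) ^ ((5 : ℝ) / 3)) ^ (3 : ℕ) < 3 ^ (3 : ℕ) :=
      pow_lt_pow_left₀ hcon (by positivity) (by norm_num)
    rw [a] at b
    norm_num at b
  have h4 : t ^ ((5 : ℝ) / 3) ≤ (3 : ℝ) ^ (γ - 2) := by
    rw [ht, ← Real.rpow_mul (by norm_num), mul_comm, Real.rpow_mul (by norm_num)]
    exact Real.rpow_le_rpow_of_nonpos (by norm_num) h32 (by linarith)
  have h5 := one_add_mul_self_le_rpow_one_add (s := t - 1) (by linarith) (p := (5 : ℝ) / 3)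
    (by norm_num)
  rw [show 1 + (t - 1) = t by ring] at h5
  rw [e2, e3]
  linarith

/-- The Fejer matrices `(m - |k - l|)₊` are positive semidefinite. -/
lemma fejer_psd (N m : ℕ) :
    (Matrix.of fun k l : Fin N => ((m - Nat.dist k l : ℕ) : ℝ)).PosSemidef := by
  have e : (Matrix.of fun k l : Fin N => ((m - Nat.dist k l : ℕ) : ℝ)) =
      ∑ s ∈ range (N + m), vecMulVec (fun k : Fin N => if s ∈ Ico (k : ℕ) (k + m) then (1 : ℝ) else 0)
        (star (fun k : Fin N => if s ∈ Ico (k : ℕ) (k + m) then (1 : ℝ) else 0)) := by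
    ext k l
    simp only [Matrix.of_apply, Matrix.sum_apply, vecMulVec_apply, star_trivial]
    have : ∀ s, (if s ∈ Ico (k : ℕ) (k + m) then (1 : ℝ) else 0) *
        (if s ∈ Ico (l : ℕ) (l + m) then (1 : ℝ) else 0) =
        if s ∈ Ico (max (k : ℕ) l) (min (k + m) (l + m)) then 1 else 0 := by
      intro s
      rw [← Finset.Ico_inter_Ico]
      by_cases h1 : s ∈ Ico (k : ℕ) (k + m) <;> by_cases h2 : s ∈ Ico (l : ℕ) (l + m) <;>
        simp only [h1, h2, Finset.mem_inter, if_true, if_false] <;> simp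
    simp only [this]
    rw [Finset.sum_ite_mem, Finset.sum_const, nsmul_eq_mul, mul_one]
    congr 1
    rw [Finset.inter_eq_right.mpr, Nat.card_Ico]
    · unfold Nat.dist; omega
    · intro s hs
      have := k.2
      rw [Finset.mem_Ico] at hs
      rw [Finset.mem_range]
      omega
  rw [e]
  exact posSemidef_sum _ (fun s _ => posSemidef_vecMulVec_self_star _)

lemma polya_expand (r : ℕ → ℝ) (M n : ℕ) (hn : n ≤ M + 1) :
    r n = r (M + 1) + (r M - r (M + 1)) * ((M + 1 - n : ℕ) : ℝ) +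
      ∑ m ∈ range M, (r m - 2 * r (m + 1) + r (m + 2)) * ((m + 1 - n : ℕ) : ℝ) := by
  induction M with
  | zero =>
    interval_cases n <;> simp
  | succ M ih =>
    rw [Finset.sum_range_succ]
    rcases Nat.lt_or_ge n (M + 2) with h | h
    · have e1 : ((M + 1 + 1 - n : ℕ) : ℝ) = ((M + 1 - n : ℕ) : ℝ) + 1 := by
        rw [show M + 1 + 1 - n = (M + 1 - n) + 1 by omega]; push_cast; ring
      rw [e1]
      have := ih (by omega)
      rw [show M + 1 + 1 = M + 2 by ring]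
      linarith
    · have hn' : n = M + 2 := by omega
      subst hn'
      have z : ∑ m ∈ range M, (r m - 2 * r (m + 1) + r (m + 2)) * ((m + 1 - (M + 2) : ℕ) : ℝ)
          = 0 := by
        apply Finset.sum_eq_zero
        intro m hm
        have := Finset.mem_range.mp hm
        rw [show m + 1 - (M + 2) = 0 by omega]; simp
      rw [z, show M + 1 + 1 - (M + 2) = 0 by omega, show M + 1 - (M + 2) = 0 by omega]
      simp

/-- Discrete Polya criterion. -/
theorem polya_psd (r : ℕ → ℝ) (h0 : ∀ n, 0 ≤ r n) (h1 : ∀ n, r (n + 1) ≤ r n)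
    (h2 : ∀ n, 0 ≤ r n - 2 * r (n + 1) + r (n + 2)) (N : ℕ) :
    (Matrix.of fun k l : Fin N => r (Nat.dist k l)).PosSemidef := by
  have e : (Matrix.of fun k l : Fin N => r (Nat.dist k l)) =
      r (N + 1) • vecMulVec (fun _ : Fin N => (1 : ℝ)) (star (fun _ : Fin N => (1 : ℝ))) +
      (r N - r (N + 1)) • (Matrix.of fun k l : Fin N => ((N + 1 - Nat.dist k l : ℕ) : ℝ)) +
      ∑ m ∈ range N, (r m - 2 * r (m + 1) + r (m + 2)) •
        (Matrix.of fun k l : Fin N => ((m + 1 - Nat.dist k l : ℕ) : ℝ)) := by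
    ext k l
    have hk := k.2
    have hl := l.2
    simp only [Matrix.of_apply, Matrix.add_apply, Matrix.smul_apply, Matrix.sum_apply,
      vecMulVec_apply, star_trivial, smul_eq_mul, mul_one]
    exact polya_expand r N _ (by unfold Nat.dist; omega)
  rw [e]
  refine PosSemidef.add (PosSemidef.add ?_ ?_) ?_
  · exact (posSemidef_vecMulVec_self_star _).smul (h0 _)
  · exact (fejer_psd N (N + 1)).smul (by linarith [h1 N])
  · exact posSemidef_sum _ (fun m _ => (fejer_psd N (m + 1)).smul (h2 m))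

end Pool.Agent.P.MP_271f9a_pr
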