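import Mathlib
import Pool.Agent.P.MP_271f9a_pr.Polya

/-! The covariance matrix of fractional Brownian motion at `1, ..., N` dominates a fixed positive
multiple of the Brownian covariance matrix when `1 < γ < 2`. -/

namespace Pool.Agent.P.MP_271f9a_pr

open Matrix Finset
open scoped ComplexOrder

/-- Covariance kernel with exponent `γ = 2 H`. -/
noncomputable def G (γ s t : ℝ) : ℝ := (|s| ^ γ + |t| ^ γ - |s - t| ^ γ) / 2

/-- Covariance function of the increments. -/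
noncomputable def rho (γ d : ℝ) : ℝ := (|d + 1| ^ γ - 2 * |d| ^ γ + |d - 1| ^ γ) / 2

/-- The explicit constant. -/
noncomputable def cst (γ : ℝ) : ℝ := (7 - 4 * (2 : ℝ) ^ γ + (3 : ℝ) ^ γ) / 2

lemma cst_pos (γ : ℝ) (h2 : γ < 2) : 0 < cst γ := by
  unfold cst; linarith [const_pos γ h2]

lemma rho_neg (γ d : ℝ) : rho γ (-d) = rho γ d := by
  unfold rho
  rw [show -d + 1 = -(d - 1) by ring, show -d - 1 = -(d + 1) by ring, abs_neg, abs_neg, abs_neg]
  ring

lemma rho_dist (γ : ℝ) (k l : ℕ) : rho γ ((k : ℝ) - l) = rho γ (Nat.dist k l : ℕ) := by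
  rcases le_total k l with h | h
  · rw [Nat.dist_eq_sub_of_le h, Nat.cast_sub h, ← rho_neg]; congr 1; ring
  · rw [Nat.dist_eq_sub_of_le_right h, Nat.cast_sub h]

lemma rho_succ (γ : ℝ) (n : ℕ) : rho γ ((n + 1 : ℕ) : ℝ) = dd 2 γ n / 2 := by
  have hn : (0 : ℝ) ≤ n := Nat.cast_nonneg n
  unfold rho
  push_cast
  rw [show (n : ℝ) + 1 - 1 = n by ring, abs_of_nonneg hn, abs_of_nonneg (by linarith),
    abs_of_nonneg (by linarith)]
  simp only [dd]
  ring

lemma rho_zero (γ : ℝ) (h : 0 < γ) : rho γ ((0 : ℕ) : ℝ) = 1 := by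
  unfold rho
  simp [Real.zero_rpow h.ne']

lemma G_sum (γ : ℝ) (h : 0 < γ) (s t : ℕ) :
    ∑ k ∈ range s, ∑ l ∈ range t, rho γ ((k : ℝ) - l) = G γ s t := by
  have inner : ∀ k : ℕ, ∑ l ∈ range t, rho γ ((k : ℝ) - l) = G γ (k + 1 : ℕ) t - G γ k t := by
    intro k
    have := Finset.sum_range_sub (fun l : ℕ => G γ (k + 1 : ℕ) l - G γ k l) t
    have z : G γ (k + 1 : ℕ) (0 : ℕ) - G γ k (0 : ℕ) = 0 := by
      unfold G; simp [Real.zero_rpow h.ne']
    rw [z, sub_zero] at this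
    rw [← this]
    apply Finset.sum_congr rfl
    intro l _
    unfold G rho
    push_cast
    rw [show (k : ℝ) + 1 - (l + 1) = k - l by ring, show (k : ℝ) - (l + 1) = k - l - 1 by ring,
      show (k : ℝ) + 1 - l = k - l + 1 by ring]
    ring
  simp only [inner]
  rw [Finset.sum_range_sub (fun k : ℕ => G γ k t) s]
  have z : G γ (0 : ℕ) t = 0 := by
    unfold G; simp [Real.zero_rpow h.ne']
  rw [z, sub_zero]

/-- Increment covariance minus the constant at lag zero. -/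
noncomputable def rr (γ : ℝ) (n : ℕ) : ℝ := rho γ n - if n = 0 then cst γ else 0

lemma rr_succ (γ : ℝ) (n : ℕ) : rr γ (n + 1) = dd 2 γ n / 2 := by
  unfold rr; rw [rho_succ]; simp

lemma rr_zero (γ : ℝ) (h : 0 < γ) : rr γ 0 = 2 * rr γ 1 - rr γ 2 := by
  rw [show (2 : ℕ) = 1 + 1 from rfl, show rr γ 1 = rr γ (0 + 1) from rfl, rr_succ, rr_succ]
  unfold rr cst
  rw [rho_zero γ h]
  simp only [dd, if_true]
  norm_num [Real.zero_rpow h.ne']
  ring

lemma rr_psd (γ : ℝ) (h1 : 1 < γ) (h2 : γ < 2) (N : ℕ) :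
    (Matrix.of fun k l : Fin N => rr γ (Nat.dist k l)).PosSemidef := by
  have hpos : ∀ n, 0 ≤ rr γ (n + 1) := fun n => by
    rw [rr_succ]; linarith [dd_two_nonneg γ n h1 (Nat.cast_nonneg n)]
  have hdec : ∀ n, rr γ (n + 1 + 1) ≤ rr γ (n + 1) := fun n => by
    rw [rr_succ, rr_succ]
    have := dd_three_nonpos γ n h1 h2 (Nat.cast_nonneg n)
    rw [dd] at this
    push_cast
    linarith
  have hcvx : ∀ n, 0 ≤ rr γ (n + 1) - 2 * rr γ (n + 1 + 1) + rr γ (n + 1 + 1 + 1) := fun n => by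
    rw [rr_succ, rr_succ, rr_succ]
    have := dd_four_nonneg γ n h1 h2 (Nat.cast_nonneg n)
    have e3 : dd 3 γ n = dd 2 γ (n + 1) - dd 2 γ n := rfl
    rw [dd, dd, e3] at this
    push_cast
    rw [show (n : ℝ) + 2 = n + 1 + 1 by ring]
    linarith
  have h0 := rr_zero γ (by linarith)
  apply polya_psd
  · intro n
    cases n with
    | zero => have := hdec 0; have := hpos 0; norm_num at *; linarith
    | succ n => exact hpos n
  · intro n
    cases n with
    | zero => have := hdec 0; norm_num at *; linarith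
    | succ n => exact hdec n
  · intro n
    cases n with
    | zero => norm_num at *; linarith
    | succ n => exact hcvx n

/-- Real covariance matrix at the times `1, ..., N`. -/
noncomputable def Rm (γ : ℝ) (N : ℕ) : Matrix (Fin N) (Fin N) ℝ :=
  Matrix.of fun i j => G γ ((i : ℝ) + 1) ((j : ℝ) + 1)

/-- Partial-sum matrix. -/
def Am (N : ℕ) : Matrix (Fin N) (Fin N) ℝ := Matrix.of fun i k => if k ≤ i then 1 else 0

lemma sum_fin_le (N : ℕ) (i : Fin N) (f : ℕ → ℝ) :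
    ∑ k : Fin N, (if k ≤ i then f k else 0) = ∑ k ∈ range (i + 1), f k := by
  have : ∀ k : Fin N, (if k ≤ i then f k else 0) = (fun n : ℕ => if n ≤ i then f n else 0) k := by
    intro k; simp only [Fin.le_def]
  simp only [this]
  rw [Fin.sum_univ_eq_sum_range (fun n : ℕ => if n ≤ i then f n else 0) N, ← Finset.sum_filter]
  congr 1
  ext n
  have := i.2
  simp only [Finset.mem_filter, Finset.mem_range]
  omega

lemma Rm_eq (γ : ℝ) (h : 0 < γ) (N : ℕ) :
    Rm γ N = Am N * (Matrix.of fun k l : Fin N => rho γ (Nat.dist k l : ℕ)) * (Am N)ᴴ := by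
  ext i j
  simp only [Rm, Am, Matrix.mul_apply, Matrix.of_apply, conjTranspose_apply, star_trivial, ite_mul,
    one_mul, zero_mul, mul_ite, mul_one, mul_zero]
  have e1 : ∀ l : Fin N, ∑ k : Fin N, (if k ≤ i then rho γ (Nat.dist k l : ℕ) else 0)
      = ∑ k ∈ range (i + 1), rho γ (Nat.dist k l : ℕ) :=
    fun l => sum_fin_le N i (fun k => rho γ (Nat.dist k l : ℕ))
  simp only [e1]
  rw [sum_fin_le N j (fun l => ∑ k ∈ range (i + 1), rho γ (Nat.dist k l : ℕ)), Finset.sum_comm]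
  simp only [← rho_dist]
  rw [G_sum γ h]
  push_cast
  rfl

lemma Rm_sub_psd (γ : ℝ) (h1 : 1 < γ) (h2 : γ < 2) (N : ℕ) :
    (Rm γ N - cst γ • (Am N * (Am N)ᴴ)).PosSemidef := by
  have e : (Matrix.of fun k l : Fin N => rho γ (Nat.dist k l : ℕ)) =
      (Matrix.of fun k l : Fin N => rr γ (Nat.dist k l)) + cst γ • (1 : Matrix (Fin N) (Fin N) ℝ) := by
    ext k l
    simp only [Matrix.of_apply, Matrix.add_apply, Matrix.smul_apply, Matrix.one_apply, rr,
      smul_eq_mul]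
    have hd : (Nat.dist k l = 0) ↔ k = l := by
      rw [← Fin.val_inj]; unfold Nat.dist; omega
    simp only [hd]
    split_ifs <;> ring
  rw [Rm_eq γ (by linarith), e, Matrix.mul_add, Matrix.add_mul, Matrix.mul_smul, Matrix.mul_one,
    Matrix.smul_mul, add_sub_cancel_right]
  exact (rr_psd γ h1 h2 N).mul_mul_conjTranspose_same _

lemma Am_posDef (N : ℕ) : (Am N * (Am N)ᴴ).PosDef := by
  have hdet : (Am N).det = 1 := by
    rw [Matrix.det_of_isLowerTriangular]
    · simp [Am]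
    · intro i j hij
      have : i < j := hij
      simp [Am, not_le.mpr this]
  have hu : IsUnit (Am N) := (Matrix.isUnit_iff_isUnit_det _).mpr (by rw [hdet]; exact isUnit_one)
  refine (posSemidef_self_mul_conjTranspose _).posDef_iff_isUnit.mpr ?_
  exact hu.mul ((Matrix.isUnit_conjTranspose _).mpr hu)

lemma Am_sub_psd (N : ℕ) :
    (Am N * (Am N)ᴴ - Matrix.of (fun _ _ : Fin N => (1 : ℝ))).PosSemidef := by
  cases N with
  | zero =>
    rw [Subsingleton.elim (Am 0 * (Am 0)ᴴ - Matrix.of (fun _ _ : Fin 0 => (1 : ℝ))) 0]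
    exact PosSemidef.zero
  | succ N =>
    have e : Am (N + 1) * (Am (N + 1))ᴴ - Matrix.of (fun _ _ : Fin (N + 1) => (1 : ℝ)) =
        ((Am (N + 1)).submatrix id Fin.succ) * ((Am (N + 1)).submatrix id Fin.succ)ᴴ := by
      ext i j
      simp only [Matrix.sub_apply, Matrix.mul_apply, Matrix.of_apply, conjTranspose_apply,
        star_trivial, submatrix_apply, id]
      rw [Fin.sum_univ_succ]
      simp [Am]
    rw [e]
    exact posSemidef_self_mul_conjTranspose _

lemma Rm_posDef (γ : ℝ) (h1 : 1 < γ) (h2 : γ < 2) (N : ℕ) : (Rm γ N).PosDef := by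
  have := PosDef.posSemidef_add (Rm_sub_psd γ h1 h2 N) ((Am_posDef N).smul (cst_pos γ h2))
  rwa [sub_add_cancel] at this

lemma hadamard_sub_psd (γ : ℝ) (h1 : 1 < γ) (h2 : γ < 2) (N : ℕ) :
    (Rm γ N ⊙ Rm γ N - cst γ • Rm γ N).PosSemidef := by
  have a := (Rm_sub_psd γ h1 h2 N).add ((Am_sub_psd N).smul (cst_pos γ h2).le)
  have b := (Rm_posDef γ h1 h2 N).posSemidef.hadamard a
  have e : Rm γ N ⊙ Rm γ N - cst γ • Rm γ N = Rm γ N ⊙ (Rm γ N - cst γ • (Am N * (Am N)ᴴ) +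
      cst γ • (Am N * (Am N)ᴴ - Matrix.of fun _ _ => 1)) := by
    ext i j
    simp only [Matrix.sub_apply, Matrix.add_apply, Matrix.smul_apply, hadamard_apply,
      Matrix.of_apply, smul_eq_mul]
    ring
  rw [e]
  exact b

lemma psd_ofReal {N : ℕ} {M : Matrix (Fin N) (Fin N) ℝ} (h : M.PosSemidef) :
    (M.map (fun x : ℝ => (x : ℂ))).PosSemidef := by
  obtain ⟨m, v, rfl⟩ := posSemidef_iff_eq_sum_vecMulVec.mp h
  have e : (∑ i, vecMulVec (v i) (star (v i))).map (fun x : ℝ => (x : ℂ)) =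
      ∑ i, vecMulVec (fun k => (v i k : ℂ)) (star (fun k => (v i k : ℂ))) := by
    ext k l
    simp [Matrix.sum_apply, vecMulVec_apply]
  rw [e]
  exact posSemidef_sum _ (fun i _ => posSemidef_vecMulVec_self_star _)

lemma posDef_ofReal {N : ℕ} {M : Matrix (Fin N) (Fin N) ℝ} (h : M.PosDef) :
    (M.map (fun x : ℝ => (x : ℂ))).PosDef := by
  refine (psd_ofReal h.posSemidef).posDef_iff_isUnit.mpr ?_
  exact h.isUnit.map (Complex.ofRealHom.mapMatrix)

/-- The key inequality between the two Hermitian forms. -/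
theorem quotient_ge (γ : ℝ) (h1 : 1 < γ) (h2 : γ < 2) (N : ℕ) (a : Fin N → ℂ) (ha : a ≠ 0) :
    cst γ ≤ (star a ⬝ᵥ ((((Rm γ N).map (fun x : ℝ => (x : ℂ))) ⊙
        ((Rm γ N).map (fun x : ℝ => (x : ℂ)))) *ᵥ a)).re /
      (star a ⬝ᵥ (((Rm γ N).map (fun x : ℝ => (x : ℂ))) *ᵥ a)).re := by
  have hp := (posDef_ofReal (Rm_posDef γ h1 h2 N)).dotProduct_mulVec_pos ha
  have hq := (psd_ofReal (hadamard_sub_psd γ h1 h2 N)).dotProduct_mulVec_nonneg a
  have e : (Rm γ N ⊙ Rm γ N - cst γ • Rm γ N).map (fun x : ℝ => (x : ℂ)) =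
      ((Rm γ N).map (fun x : ℝ => (x : ℂ))) ⊙ ((Rm γ N).map (fun x : ℝ => (x : ℂ))) -
        (cst γ : ℂ) • (Rm γ N).map (fun x : ℝ => (x : ℂ)) := by
    ext i j
    simp
  rw [e, Matrix.sub_mulVec, dotProduct_sub, Matrix.smul_mulVec, dotProduct_smul] at hq
  have hp' := (Complex.pos_iff.mp hp).1
  have hq' := (Complex.nonneg_iff.mp hq).1
  rw [le_div_iff₀ hp']
  simp only [Complex.sub_re, smul_eq_mul, Complex.re_ofReal_mul] at hq'
  linarith

end Pool.Agent.P.MP_271f9a_pr
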